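import Pool.Agent.KS6_26.SO.K4Main

/-!
# For exactly which localities are single orbit characterizations of bounded locality available?

`F ⊆ K` are finite fields; `P` runs through the affine-invariant properties of functions `K → F` (not all
functions) with a `k`-local characterization, `k'(P)` is the least locality of a single orbit
characterization of `P`. The notions are those of `H79SO` (`AffInv`, `LocalChar`, `SingleOrbit`, `kPrime`).

The complete answer is: the numbers `k'(P)` are bounded for all `F` and `K` together (Q2) if and only if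
`k ≤ 3`; for a fixed field `F` (Q1) they are bounded if and only if `k ≤ 4`, or `k ≤ 5` and `|F| = 2`.
For `k = 4` they are at most `4 (2 + q ^ q + 4 q ^ 4)`, `q = |F|`.

Known before (module `LocalityThresholds` of the library, used here): the bounds for `k ≤ 3`, and for
`k ≤ 5` if `|F| = 2`; no bound for `k ≥ 6` and fixed `F`, and for `k ≥ 5` if `F` varies. New:

* `k = 4`, `F = K`: no bound. The constraints are
  `f (γ ^ 2) - (γ + γ ^ p) f (γ) + γ ^ (p + 1) f (1) - (1 - γ) (1 - γ ^ p) f (0) = 0`, with `γ` in subfields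
  of coprime degrees (`Pool/Agent/KS6_26/SO/Four.lean`).
* `k = 5`, every fixed `F` with `q = |F| ≥ 3`: no bound. The constraints are
  `f (x + 1) - f (x) - f (1) + α f (y) + β f (ω y) = 0` with `ω ≠ 0, 1` in `F`, `α + β = 1`, `α + β ω = 0`
  and `x + x ^ q = ω y ^ (q + 1)` in subfields of coprime odd degrees (`FiveQ.lean`, `FiveQ2.lean`).
* `k = 4`, every fixed `F`: a bound. The degrees of the monomials in `P` are `0`, or `x ^ d` is an
  automorphism `σ` of `K`, or a product `σ τ` of two. The words `κ` (in `F ^ 4`) on the points `z` (in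
  `K ^ 4`) which are orthogonal to `P` are treated for each `κ` separately. Modulo affine maps the `z` are
  points of a projective line, with a nondegenerate form; if `z, w, z + w` are three of them, and `T` is the
  set of the `t` such that `z + t w` is one of them, then `z + t w`, `t` in `T`, are orthogonal to `σ τ` if
  and only if `z`, `w`, `z + w` are and `σ = τ` on `T`. So four words (with `t` a generator of the field
  generated by `T`) replace all of them (`K4Core.lean`, `K4Main.lean`).
-/

set_option autoImplicit false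

namespace Pool.Agent.Results.MP_cb1103_lc.ExactThresholds

open H79SO

theorem card_idx (F : Type) [Fintype F] [DecidableEq F] : Fintype.card (K4.Idx F × Fin 4) =
    4 * (2 + Fintype.card F ^ Fintype.card F + 4 * Fintype.card F ^ 4) := by
  simp only [Fintype.card_prod, Fintype.card_sum, Fintype.card_unit, Fintype.card_fun,
    Fintype.card_fin]
  ring

/-- `kPrime P` is the least `k'` such that `P` has a `k'`-single orbit characterization (there is one).
1. (Q1) For every finite field `F` and every `k` the numbers `k'(P)` of the properties of functions from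
finite extensions `K` of `F` to `F` with a `k`-local characterization are bounded if and only if `k ≤ 4`, or
`k ≤ 5` and `F` has two elements.
2. (Q2) For every `k` the numbers `k'(P)`, for all `F` and all `K`, are bounded if and only if `k ≤ 3`; the
same is true if only `K = F` is allowed.
3. Bounds: `k'(P) ≤ 3` for `k ≤ 3`, `k'(P) ≤ 4 (2 + q ^ q + 4 q ^ 4)` for `k ≤ 4` and `|F| = q`, and
`k'(P) ≤ 4` for `k ≤ 5` and `|F| = 2`. -/
theorem result :
    (∀ (F : Type) [Field F] [Finite F] (k : ℕ),
      (∃ B : ℕ, ∀ (K : Type) [Field K] [Finite K] [Algebra F K] (P : Submodule F (K → F)),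
        AffInv P → P ≠ ⊤ → LocalChar k P → SingleOrbit (kPrime P) P ∧ kPrime P ≤ B) ↔
        (k ≤ 4 ∨ (k ≤ 5 ∧ Nat.card F = 2))) ∧
    (∀ k : ℕ,
      ((∃ B : ℕ, ∀ (F K : Type) [Field F] [Field K] [Finite F] [Finite K] [Algebra F K]
        (P : Submodule F (K → F)),
        AffInv P → P ≠ ⊤ → LocalChar k P → SingleOrbit (kPrime P) P ∧ kPrime P ≤ B) ↔ k ≤ 3) ∧
      ((∃ B : ℕ, ∀ (K : Type) [Field K] [Finite K] (P : Submodule K (K → K)),
        AffInv P → P ≠ ⊤ → LocalChar k P → SingleOrbit (kPrime P) P ∧ kPrime P ≤ B) ↔ k ≤ 3)) ∧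
    (∀ (F K : Type) [Field F] [Field K] [Finite F] [Finite K] [Algebra F K] (k : ℕ)
      (P : Submodule F (K → F)), AffInv P → P ≠ ⊤ → LocalChar k P →
        SingleOrbit (kPrime P) P ∧ (k ≤ 3 → kPrime P ≤ 3) ∧
        (k ≤ 4 → kPrime P ≤ 4 * (2 + Nat.card F ^ Nat.card F + 4 * Nat.card F ^ 4)) ∧
        (k ≤ 5 → Nat.card F = 2 → kPrime P ≤ 4)) := by
  classical
  have hall : ∀ (F K : Type) [Field F] [Field K] [Finite F] [Finite K] [Algebra F K] (k : ℕ)
      (P : Submodule F (K → F)), AffInv P → P ≠ ⊤ → LocalChar k P → SingleOrbit (kPrime P) P := by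
    intro F K _ _ _ _ _ k P hP htop hl
    have : Fintype K := Fintype.ofFinite K
    obtain ⟨p, hpc⟩ := CharP.exists K
    obtain ⟨N, hp, hN⟩ := FiniteField.card K p
    exact (upper' (F := F) p N hp (by rw [Nat.card_eq_fintype_card, hN]) k P hP htop hl).1
  have hfour : ∀ (F : Type) [Field F] [Finite F] (K : Type) [Field K] [Finite K]
      [Algebra F K] (P : Submodule F (K → F)), AffInv P → P ≠ ⊤ → LocalChar 4 P →
      SingleOrbit (kPrime P) P ∧
        kPrime P ≤ 4 * (2 + Nat.card F ^ Nat.card F + 4 * Nat.card F ^ 4) := by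
    intro F _ _ K _ _ _ P hP htop hl
    have : Fintype F := Fintype.ofFinite F
    have h1 := bounded4' F K P hP htop hl
    refine ⟨h1.1, h1.2.trans ?_⟩
    rw [card_idx, Nat.card_eq_fintype_card]
    refine max_le (le_refl _) ?_
    have h2 : 1 < Fintype.card F := Fintype.one_lt_card
    have h3 : 2 ^ 4 ≤ Fintype.card F ^ 4 := Nat.pow_le_pow_left h2 4
    omega
  refine ⟨?_, ?_, ?_⟩
  · intro F _ _ k
    constructor
    · rintro ⟨B, hB⟩
      by_contra hcon
      push Not at hcon
      obtain ⟨hk4, hk5⟩ := hcon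
      have hF2 : 2 ≤ Nat.card F := Finite.one_lt_card
      rcases Nat.lt_or_ge 5 k with h6 | h6
      · obtain ⟨K, i1, i2, i3, P, h1, h2, h3, h4⟩ := unbounded6 F k h6 B
        have := (hB K P h1 h2 h3).2
        omega
      · have h7 := hk5 h6
        obtain ⟨K, i1, i2, i3, P, h1, h2, h3, h4⟩ := unbounded5q F (by omega) k (by omega) B
        have := (hB K P h1 h2 h3).2
        omega
    · rintro (hk | ⟨hk, hF⟩)
      · refine ⟨4 * (2 + Nat.card F ^ Nat.card F + 4 * Nat.card F ^ 4), fun K _ _ _ P hP htop hl => ?_⟩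
        exact hfour F K P hP htop (local_mono k 4 hk P hl)
      · exact ⟨4, fun K _ _ _ P hP htop hl => binary' hF k hk P hP htop hl⟩
  · intro k
    have hK : (∃ B : ℕ, ∀ (K : Type) [Field K] [Finite K] (P : Submodule K (K → K)),
        AffInv P → P ≠ ⊤ → LocalChar k P → SingleOrbit (kPrime P) P ∧ kPrime P ≤ B) → k ≤ 3 := by
      rintro ⟨B, hB⟩
      by_contra hk
      obtain ⟨K, i1, i2, P, h1, h2, h3, h4⟩ := unbounded4 k (by omega) B
      have := (hB K P h1 h2 h3).2
      omega
    refine ⟨⟨?_, ?_⟩, ⟨hK, ?_⟩⟩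
    · rintro ⟨B, hB⟩
      exact hK ⟨B, fun K _ _ P => hB K K P⟩
    · intro hk
      exact ⟨3, fun F K _ _ _ _ _ P hP htop hl => ternary' k hk P hP htop hl⟩
    · intro hk
      exact ⟨3, fun K _ _ P hP htop hl => ternary' k hk P hP htop hl⟩
  · intro F K _ _ _ _ _ k P hP htop hl
    refine ⟨hall F K k P hP htop hl, fun hk => (ternary' k hk P hP htop hl).2, fun hk => ?_,
      fun hk hF => (binary' hF k hk P hP htop hl).2⟩
    exact (hfour F K P hP htop (local_mono k 4 hk P hl)).2

end Pool.Agent.Results.MP_cb1103_lc.ExactThresholds
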